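import Mathlib
import Pool.Agent.MP_990230_pr.k8.Main

open Set MeasureTheory ProbabilityTheory Filter
open scoped ENNReal NNReal Topology

namespace Pool.Agent.Results.MP_990230_pr.ExpBound

open Pool.Agent.MP_990230_pr

universe u

/-- For `0 < κ < 8` the ordered multi-point Green function of chordal SLE satisfies
`G(z_1, ..., z_n) ≤ c^n ∏ |z_i - z_(i-1)|^(d-2)` with `d = 1 + κ/8`, `z_0 = 0`. -/
theorem result (κ : ℝ) (h0 : 0 < κ) (h8 : κ < 8) (chat : ℝ) (hchat : 0 < chat) :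
    ∃ c : ℝ,
      ∀ (Ω : Type u) [MeasurableSpace Ω] (P : Measure Ω) (B : ℝ≥0 → Ω → ℝ), IsBrownianReal B P →
      ∀ γ : Ω → ℝ → ℂ, (∀ᵐ ω ∂P, Generated (2 / κ) (fun t => B t.toNNReal ω) (γ ω)) →
      ∀ (n : ℕ) (z : Fin n → ℂ), (∀ j, 0 < (z j).im) → ∀ G : ℝ,
        Tendsto (fun ε : Fin n → ℝ =>
            (∏ j, ε j ^ (1 + κ / 8 - 2)) * (P {ω | Ordered (γ ω) z ε}).toReal)
          (𝓝[{ε | ∀ j, 0 < ε j}] 0) (𝓝 (chat ^ n * G)) →
        G ≤ c ^ n * ∏ i : Fin n,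
          ‖z i - (Fin.cons 0 z : Fin (n + 1) → ℂ) i.castSucc‖ ^ (1 + κ / 8 - 2) :=
  main_all κ h0 h8 chat hchat

end Pool.Agent.Results.MP_990230_pr.ExpBound
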